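import Pool.Agent.N569.VT.Defs

/-!
# VT2: two colours
-/

set_option autoImplicit false

namespace Pool.Agent.N701.VT

open Pool.Agent.H891R2.Jones Pool.Agent.W639.RB Pool.Agent.TH561 Pool.Agent.N569.TW Pool.Agent.N569.VT
  Finset LaurentPolynomial

variable {m : ℕ}

theorem mem_cols (X : Lk m) (c : X.Q → Fin 2) :
    c ∈ X.cols ↔ ∀ p q, X.Rc p q → c p = c q := by
  unfold Lk.cols
  simp

/-- VT2 (1) -/
theorem card_cols (X : Lk m) : #X.cols = 2 ^ X.loops := by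
  classical
  have e : {c : X.Q → Fin 2 // c ∈ X.cols} ≃ (Quot X.Rc → Fin 2) :=
    { toFun := fun c => Quot.lift c.1 ((mem_cols X c.1).1 c.2)
      invFun := fun f => ⟨fun p => f (Quot.mk _ p),
        (mem_cols X _).2 fun p q h => congrArg f (Quot.sound h)⟩
      left_inv := fun c => rfl
      right_inv := fun f => by
        funext x
        induction x using Quot.ind
        rfl }
  have h := Nat.card_congr e
  rw [Nat.card_eq_fintype_card, Fintype.card_coe, Nat.card_fun, Nat.card_eq_fintype_card,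
    Fintype.card_fin] at h
  exact h

theorem fin2_sub {a b c d : Fin 2} (h1 : a ≠ b) (h2 : c ≠ d) : a - c = b - d := by
  revert a b c d
  decide

/-- VT2 (2): a general exchange of two pairs of joined points -/
theorem exch {Q : Type} [Fintype Q] [DecidableEq Q] (V : AddSubgroup (Q → Fin 2)) (a b c d : Q)
    (A B : Finset (Q → Fin 2)) (hA : ∀ f, f ∈ A ↔ f ∈ V ∧ f a = f b ∧ f c = f d)
    (hB : ∀ f, f ∈ B ↔ f ∈ V ∧ f b = f c ∧ f d = f a) : #B ≤ 2 * #A := by
  classical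
  have h0 : #(B.filter fun f => f a = f b) ≤ #A := by
    refine card_le_card fun f hf => ?_
    obtain ⟨h1, h2⟩ := mem_filter.1 hf
    obtain ⟨h3, h4, h5⟩ := (hB f).1 h1
    exact (hA f).2 ⟨h3, h2, by rw [← h4, ← h2, h5]⟩
  have h1 : #(B.filter fun f => ¬ f a = f b) ≤ #A := by
    rcases (B.filter fun f => ¬ f a = f b).eq_empty_or_nonempty with he | ⟨f0, hf0⟩
    · rw [he, card_empty]
      exact Nat.zero_le _
    · obtain ⟨g1, g2⟩ := mem_filter.1 hf0
      obtain ⟨g3, g4, g5⟩ := (hB f0).1 g1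
      refine card_le_card_of_injOn (fun f => f - f0) (fun f hf => ?_) (fun f _ g _ h => ?_)
      · obtain ⟨k1, k2⟩ := mem_filter.1 hf
        obtain ⟨k3, k4, k5⟩ := (hB f).1 k1
        refine (hA _).2 ⟨V.sub_mem k3 g3, ?_, ?_⟩
        · show f a - f0 a = f b - f0 b
          exact fin2_sub k2 g2
        · show f c - f0 c = f d - f0 d
          rw [← k4, ← g4, k5, g5]
          exact (fin2_sub k2 g2).symm
      · exact sub_left_injective h
  have h2 := card_filter_add_card_filter_not (s := B) (fun f => f a = f b)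
  omega

theorem halve {Q : Type} [Fintype Q] [DecidableEq Q] (V : AddSubgroup (Q → Fin 2)) (a b : Q)
    (A B : Finset (Q → Fin 2)) (hA : ∀ f, f ∈ A ↔ f ∈ V)
    (hB : ∀ f, f ∈ B ↔ f ∈ V ∧ f a = f b) : #A ≤ 2 * #B := by
  classical
  have h0 : #(A.filter fun f => f a = f b) ≤ #B := by
    refine card_le_card fun f hf => ?_
    obtain ⟨h1, h2⟩ := mem_filter.1 hf
    exact (hB f).2 ⟨(hA f).1 h1, h2⟩
  have h1 : #(A.filter fun f => ¬ f a = f b) ≤ #B := by
    rcases (A.filter fun f => ¬ f a = f b).eq_empty_or_nonempty with he | ⟨f0, hf0⟩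
    · rw [he, card_empty]
      exact Nat.zero_le _
    · obtain ⟨g1, g2⟩ := mem_filter.1 hf0
      refine card_le_card_of_injOn (fun f => f - f0) (fun f hf => ?_) (fun f _ g _ h => ?_)
      · obtain ⟨k1, k2⟩ := mem_filter.1 hf
        refine (hB _).2 ⟨V.sub_mem ((hA f).1 k1) ((hA f0).1 g1), ?_⟩
        show f a - f0 a = f b - f0 b
        exact fin2_sub k2 g2
      · exact sub_left_injective h
  have h2 := card_filter_add_card_filter_not (s := A) (fun f => f a = f b)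
  omega

/-- VT2 (4): `r` linear conditions -/
theorem cut {Q : Type} [Fintype Q] [DecidableEq Q] (V : AddSubgroup (Q → Fin 2)) (r : List (Q × Q))
    (A B : Finset (Q → Fin 2)) (hA : ∀ f, f ∈ A ↔ f ∈ V)
    (hB : ∀ f, f ∈ B ↔ f ∈ V ∧ ∀ x ∈ r, f x.1 = f x.2) : #A ≤ 2 ^ r.length * #B := by
  classical
  induction r generalizing B with
  | nil =>
    rw [List.length_nil, pow_zero, one_mul]
    refine card_le_card fun f hf => (hB f).2 ⟨(hA f).1 hf, fun x hx => ?_⟩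
    exact absurd hx List.not_mem_nil
  | cons x r ih =>
    let W : AddSubgroup (Q → Fin 2) :=
      { carrier := {f | f ∈ V ∧ ∀ y ∈ r, f y.1 = f y.2}
        zero_mem' := ⟨V.zero_mem, fun _ _ => rfl⟩
        add_mem' := by
          rintro f g ⟨h1, h2⟩ ⟨h3, h4⟩
          exact ⟨V.add_mem h1 h3, fun y hy => by
            rw [Pi.add_apply, Pi.add_apply, h2 y hy, h4 y hy]⟩
        neg_mem' := by
          rintro f ⟨h1, h2⟩
          exact ⟨V.neg_mem h1, fun y hy => by rw [Pi.neg_apply, Pi.neg_apply, h2 y hy]⟩ }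
    have hWA : ∀ f, f ∈ univ.filter (fun f => f ∈ W) ↔ f ∈ V ∧ ∀ y ∈ r, f y.1 = f y.2 :=
      fun f => by
        rw [mem_filter]
        exact ⟨fun h => h.2, fun h => ⟨mem_univ _, h⟩⟩
    have h1 := ih (univ.filter (fun f => f ∈ W)) hWA
    have h2 := halve W x.1 x.2 (univ.filter (fun f => f ∈ W)) B
      (fun f => by rw [mem_filter]; exact ⟨fun h => h.2, fun h => ⟨mem_univ _, h⟩⟩)
      (fun f => by
        rw [hB]
        constructor
        · rintro ⟨h3, h4⟩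
          exact ⟨⟨h3, fun y hy => h4 y (List.mem_cons_of_mem _ hy)⟩, h4 x List.mem_cons_self⟩
        · rintro ⟨⟨h3, h4⟩, h5⟩
          refine ⟨h3, fun y hy => ?_⟩
          rcases List.mem_cons.1 hy with rfl | hy
          · exact h5
          · exact h4 y hy)
    rw [List.length_cons, pow_succ, mul_assoc]
    exact h1.trans (Nat.mul_le_mul_left _ h2)

theorem mat_word_append (hmul : ∀ (X Y : Lk m) (N : ℕ), (X.mul Y).mat N = X.mat N * Y.mat N)
    (hone : ∀ N : ℕ, (Lk.one m).mat N = 1) (L : List ℕ) (i N : ℕ) :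
    (Lk.word m (L ++ [i])).mat N = (Lk.word m L).mat N * (Lk.e m i).mat N := by
  induction L with
  | nil =>
    show ((Lk.e m i).mul (Lk.one m)).mat N = (Lk.one m).mat N * (Lk.e m i).mat N
    rw [hmul, hone, mul_one, one_mul]
  | cons j L ih =>
    show ((Lk.e m j).mul (Lk.word m (L ++ [i]))).mat N =
      ((Lk.e m j).mul (Lk.word m L)).mat N * (Lk.e m i).mat N
    rw [hmul, hmul, ih, mul_assoc]

theorem lam_append (hmul : ∀ (X Y : Lk m) (N : ℕ), (X.mul Y).mat N = X.mat N * Y.mat N)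
    (hone : ∀ N : ℕ, (Lk.one m).mat N = 1)
    (htr : ∀ (X : Lk m) (N : ℕ), Matrix.trace (X.mat N) = (N : ℂ) ^ X.loops)
    (X : Lk m) (L : List ℕ) (i : ℕ) :
    X.lam (L ++ [i]) = ((X.mul (Lk.word m L)).mul (Lk.e m i)).loops := by
  have h1 := htr (X.mul (Lk.word m (L ++ [i]))) 2
  have h2 := htr ((X.mul (Lk.word m L)).mul (Lk.e m i)) 2
  rw [hmul, mat_word_append hmul hone, ← mul_assoc] at h1
  rw [hmul, hmul, h1] at h2
  have h3 : (2 : ℕ) ^ (X.mul (Lk.word m (L ++ [i]))).loops =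
      2 ^ ((X.mul (Lk.word m L)).mul (Lk.e m i)).loops := by exact_mod_cast h2
  exact Nat.pow_right_injective le_rfl h3

/-- inserting a generator at the right end -/
theorem loops_mul_e (M : Lk m) (i : ℕ) (hi : i + 1 < m) :
    (M.mul (Lk.e m i)).loops ≤ M.loops + 1 := by
  classical
  have hi' : i < m := Nat.lt_of_succ_lt hi
  let V : AddSubgroup (M.Q → Fin 2) :=
    { carrier := {f | (∀ p q, M.R p q → f p = f q) ∧
        ∀ j : Fin m, (j : ℕ) ≠ i → (j : ℕ) ≠ i + 1 → f (M.l j) = f (M.u j)}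
      zero_mem' := ⟨fun _ _ _ => rfl, fun _ _ _ => rfl⟩
      add_mem' := by
        rintro f g ⟨h1, h2⟩ ⟨h3, h4⟩
        exact ⟨fun p q h => by rw [Pi.add_apply, Pi.add_apply, h1 p q h, h3 p q h],
          fun j hj hj' => by rw [Pi.add_apply, Pi.add_apply, h2 j hj hj', h4 j hj hj']⟩
      neg_mem' := by
        rintro f ⟨h1, h2⟩
        exact ⟨fun p q h => by rw [Pi.neg_apply, Pi.neg_apply, h1 p q h],
          fun j hj hj' => by rw [Pi.neg_apply, Pi.neg_apply, h2 j hj hj']⟩ }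
  have hV : ∀ f, f ∈ V ↔ (∀ p q, M.R p q → f p = f q) ∧
      ∀ j : Fin m, (j : ℕ) ≠ i → (j : ℕ) ≠ i + 1 → f (M.l j) = f (M.u j) := fun f => Iff.rfl
  obtain ⟨B, hB⟩ : ∃ B : Finset (M.Q → Fin 2), ∀ f, f ∈ B ↔ f ∈ V ∧
      f (M.u ⟨i, hi'⟩) = f (M.u ⟨i + 1, hi⟩) ∧ f (M.l ⟨i + 1, hi⟩) = f (M.l ⟨i, hi'⟩) :=
    ⟨univ.filter fun f => f ∈ V ∧
      f (M.u ⟨i, hi'⟩) = f (M.u ⟨i + 1, hi⟩) ∧ f (M.l ⟨i + 1, hi⟩) = f (M.l ⟨i, hi'⟩),
      fun f => by simp⟩
  have h1 : #B ≤ 2 * #M.cols := by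
    refine exch V (M.l ⟨i, hi'⟩) (M.u ⟨i, hi'⟩) (M.u ⟨i + 1, hi⟩) (M.l ⟨i + 1, hi⟩) _ B ?_ hB
    intro f
    rw [mem_cols, hV]
    constructor
    · intro h
      exact ⟨⟨fun p q hpq => h p q (Or.inl hpq), fun j _ _ => h _ _ (Or.inr ⟨j, rfl, rfl⟩)⟩,
        h _ _ (Or.inr ⟨_, rfl, rfl⟩), (h _ _ (Or.inr ⟨_, rfl, rfl⟩)).symm⟩
    · rintro ⟨⟨g1, g2⟩, g3, g4⟩ p q (hpq | ⟨j, rfl, rfl⟩)
      · exact g1 p q hpq
      · by_cases hj : (j : ℕ) = i
        · have : j = ⟨i, hi'⟩ := Fin.ext hj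
          rw [this]
          exact g3
        · by_cases hj' : (j : ℕ) = i + 1
          · have : j = ⟨i + 1, hi⟩ := Fin.ext hj'
            rw [this]
            exact g4.symm
          · exact g2 j hj hj'
  have h2 : #(M.mul (Lk.e m i)).cols ≤ #B := by
    have key : ∀ c : (M.mul (Lk.e m i)).Q → Fin 2, c ∈ (M.mul (Lk.e m i)).cols →
        (∀ p q, M.R p q → c (Sum.inl p) = c (Sum.inl q)) ∧
        (∀ p q, (Lk.e m i).R p q → c (Sum.inr p) = c (Sum.inr q)) ∧
        (∀ j, c (Sum.inl (M.u j)) = c (Sum.inr (Sum.inl j))) ∧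
        ∀ j, c (Sum.inl (M.l j)) = c (Sum.inr (Sum.inr j)) := by
      intro c hc
      rw [mem_cols] at hc
      exact ⟨fun p q h => hc _ _ (Or.inl (Or.inl ⟨p, q, rfl, rfl, h⟩)),
        fun p q h => hc _ _ (Or.inl (Or.inr (Or.inl ⟨p, q, rfl, rfl, h⟩))),
        fun j => hc _ _ (Or.inl (Or.inr (Or.inr ⟨j, rfl, rfl⟩))),
        fun j => hc _ _ (Or.inr ⟨j, rfl, rfl⟩)⟩
    refine card_le_card_of_injOn (fun c => fun p => c (Sum.inl p)) (fun c hc => ?_)
      (fun c hc c' hc' h => ?_)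
    · obtain ⟨k1, k2, k3, k4⟩ := key c hc
      refine (hB _).2 ⟨(hV _).2 ⟨k1, fun j hj hj' => ?_⟩, ?_, ?_⟩
      · show c (Sum.inl (M.l j)) = c (Sum.inl (M.u j))
        rw [k3, k4]
        exact (k2 _ _ (Or.inr (Or.inr ⟨j, hj, hj', rfl, rfl⟩))).symm
      · show c (Sum.inl (M.u _)) = c (Sum.inl (M.u _))
        rw [k3, k3]
        exact k2 _ _ (Or.inl ⟨hi, rfl, rfl⟩)
      · show c (Sum.inl (M.l _)) = c (Sum.inl (M.l _))
        rw [k4, k4]
        exact (k2 _ _ (Or.inr (Or.inl ⟨hi, rfl, rfl⟩))).symm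
    · obtain ⟨k1, k2, k3, k4⟩ := key c hc
      obtain ⟨k1', k2', k3', k4'⟩ := key c' hc'
      have h' : ∀ p, c (Sum.inl p) = c' (Sum.inl p) := fun p => congrFun h p
      funext x
      rcases x with p | j | j
      · exact h' p
      · rw [← k3, ← k3', h']
      · rw [← k4, ← k4', h']
  rw [card_cols] at h1 h2
  have h3 : 2 ^ (M.mul (Lk.e m i)).loops ≤ 2 ^ (M.loops + 1) := by
    rw [pow_succ]
    omega
  exact (Nat.pow_le_pow_iff_right (by norm_num)).1 h3

/-- VT2 (3): insertion of a generator -/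
theorem lam_add (hmul : ∀ (X Y : Lk m) (N : ℕ), (X.mul Y).mat N = X.mat N * Y.mat N)
    (hone : ∀ N : ℕ, (Lk.one m).mat N = 1)
    (htr : ∀ (X : Lk m) (N : ℕ), Matrix.trace (X.mat N) = (N : ℂ) ^ X.loops)
    (X : Lk m) (L : List ℕ) (_hL : ∀ i ∈ L, i + 1 < m) (i : ℕ) (hi : i + 1 < m) :
    X.lam (L ++ [i]) ≤ X.lam L + 1 := by
  rw [lam_append hmul hone htr]
  exact loops_mul_e _ i hi

end Pool.Agent.N701.VT
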